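import Pool.Agent.MWGN.StmtsB

/-!
# MWGN, row GLX: the exchange lemma
-/

set_option autoImplicit false

namespace Pool.Agent.MWGN.H54

open Pool.Agent.Helper14_MV Pool.Agent.Helper2_MV Pool.Agent.MWGN
open Pool.Agent.MWK (pre Gw)

theorem cz {U : List ℕ} {c q : ℕ} (h : U.count c = 0) : (pre U q).count c = 0 := by
  have := MWK.count_pre_le U c q
  omega

theorem pcount {p U V R : List ℕ} {c q : ℕ} (hp : q ∉ p) (hUV : q ∈ U ∨ q ∈ V)
    (hU : U.count c = 0) (hV : V.count c = 0) :
    (pre (p ++ (U ++ (V ++ R))) q).count c = p.count c := by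
  by_cases hqU : q ∈ U
  · rw [MWK.pre_append hp, MWK.pre_append_mem hqU, List.count_append, cz hU]
    omega
  · have hqV : q ∈ V := by
      rcases hUV with h | h
      · exact absurd h hqU
      · exact h
    rw [MWK.pre_append hp, MWK.pre_append hqU, MWK.pre_append_mem hqV, List.count_append,
      List.count_append, cz hV, hU]
    omega

theorem same {p U V R : List ℕ} {x y : ℕ} (h : y ∈ p ∨ (y ∉ U ∧ y ∉ V)) :
    (pre (p ++ (U ++ (V ++ R))) y).count x = (pre (p ++ (V ++ (U ++ R))) y).count x := by
  by_cases hp : y ∈ p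
  · rw [MWK.pre_append_mem hp, MWK.pre_append_mem hp]
  · rcases h with h | ⟨hU, hV⟩
    · exact absurd h hp
    · rw [MWK.pre_append hp, MWK.pre_append hp, MWK.pre_append hU, MWK.pre_append hV,
        MWK.pre_append hV, MWK.pre_append hU]
      simp only [List.count_append]
      omega

theorem glx : GlxStmt := by
  intro p X Y F G H U V hUV w w' hw hw' hG c q s hs hqs hcs hq hc
  have hcount : ∀ d, w.count d = p.count d + (X.count d + (Y.count d + (F.count d + (X.count d +
      (G.count d + (Y.count d + H.count d)))))) := by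
    intro d
    rw [hw]
    simp only [List.count_append]
    rcases hUV with ⟨rfl, rfl⟩ | ⟨rfl, rfl⟩ <;> omega
  have hsX : s ∉ X := fun h => by
    have h1 := List.count_pos_iff.2 h
    have h2 := hcount s
    omega
  have hsY : s ∉ Y := fun h => by
    have h1 := List.count_pos_iff.2 h
    have h2 := hcount s
    omega
  have hsG : s ∉ G := fun h => by
    have h1 := hG s h
    omega
  have hsU : s ∉ U := by rcases hUV with ⟨rfl, rfl⟩ | ⟨rfl, rfl⟩ <;> assumption
  have hsV : s ∉ V := by rcases hUV with ⟨rfl, rfl⟩ | ⟨rfl, rfl⟩ <;> assumption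
  unfold nn at hq hc ⊢
  by_cases hcase : q ∈ p ∨ (q ∉ U ∧ q ∉ V)
  · rw [hw, hw']
    exact (same hcase).symm
  · rw [not_or] at hcase
    obtain ⟨hqp, hqUV⟩ := hcase
    have hqUV' : q ∈ U ∨ q ∈ V := by
      by_contra hn
      rw [not_or] at hn
      exact hqUV hn
    have hqXY : 1 ≤ X.count q + Y.count q := by
      rcases hUV with ⟨rfl, rfl⟩ | ⟨rfl, rfl⟩ <;> rcases hqUV' with h | h <;>
        (have := List.count_pos_iff.2 h; omega)
    have hsum : ∀ d, U.count d + V.count d = X.count d + Y.count d := by
      intro d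
      rcases hUV with ⟨rfl, rfl⟩ | ⟨rfl, rfl⟩ <;> omega
    have hsp : s ∉ p := by
      intro h
      rw [hw, MWK.pre_append_mem h] at hq
      exact hqp (MWK.mem_of_mem_pre (List.count_pos_iff.1 (by omega : 0 < (pre p s).count q)))
    rw [hw, MWK.pre_append hsp, MWK.pre_append hsU, MWK.pre_append hsV] at hq hc
    have hsF : s ∈ F := by
      by_contra h
      rw [MWK.pre_append h, MWK.pre_append hsX, MWK.pre_append hsG, MWK.pre_append hsY] at hq
      simp only [List.count_append] at hq
      have := hsum q
      omega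
    rw [MWK.pre_append_mem hsF] at hq hc
    have hcF := MWK.count_pre_le F c s
    have hcc := hcount c
    rw [hw] at hcc
    have h1 := hsum c
    simp only [List.count_append] at hc hcc
    have hX0 : X.count c = 0 := by omega
    have hY0 : Y.count c = 0 := by omega
    have hU0 : U.count c = 0 := by omega
    have hV0 : V.count c = 0 := by omega
    rw [hw, hw', pcount hqp hqUV' hU0 hV0, pcount hqp hqUV'.symm hV0 hU0]

end Pool.Agent.MWGN.H54
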