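import Pool.Agent.Helper27_MWF.POW
import Pool.Agent.Helper77_MWF.CTT
import Pool.Agent.Helper42_MWF.SIM
import Pool.Agent.Helper77_MWGN.CLS
import Pool.Agent.Helper27_MWGN.OLR
import Pool.Agent.Helper74_MWGN.TLW
import Pool.Agent.Helper23_MWGN.TLR
import Pool.Agent.Helper6_MWGN.WCV
import Pool.Agent.Helper49_MWGN.KAR
import Pool.Agent.Helper60_MWGN.KPR
import Pool.Agent.Helper4_MWGN.SRT
import Pool.Agent.Helper34_MWGN.NOA
import Pool.Agent.Helper76_MWGN.NOB
import Pool.Agent.Helper46_MWGN.REN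
import Pool.Agent.Helper15_MWGN.DST
import Pool.Agent.Helper16_MWGN.SPV
import Pool.Agent.Helper43_MWGN.VCL
import Pool.Agent.Helper14_MWGN.PRF
import Pool.Agent.Helper10_MWGN.PRB
import Pool.Agent.Helper42_MWGN.SA1
import Pool.Agent.Helper50_MWGN.SA2
import Pool.Agent.Helper36_MWGN.CMW
import Pool.Agent.Helper7_MWGN.GLS
import Pool.Agent.Helper54_MWGN.GLX
import Pool.Agent.Helper94_MWGN.WCX
import Pool.Agent.Helper59_MWGN.SPX
import Pool.Agent.Helper26_MWGN.MPO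
import Pool.Agent.Helper19_MWGN.MCV
import Pool.Agent.Helper81_MWGN.HZE
import Pool.Agent.Helper53_MWGN.FOR
import Pool.Agent.Helper10_MWGN.MC1
import Pool.Agent.Helper45_MWGN.MC2
import Pool.Agent.Helper81_MWGN.MC3
import Pool.Agent.Helper88_MWGN.CLO
import Pool.Agent.Helper7_MWGN.DPE
import Pool.Agent.Helper66_MWGN.G3F

/-!
# MWGN: composition of parts A and B (the doubling pentagon)
-/

namespace Pool.Agent.MWGN.Comp

open Pool.Agent.Helper14_MV Pool.Agent.Helper2_MV Pool.Agent.MWGN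

theorem pow : MWF.PowStmt := MWF.H27.pow
theorem ctt : MWF.CttStmt := MWF.H77.ctt pow
theorem sim : MWF.SimStmt := MWF.H42.sim pow ctt
theorem cls : ClsStmt := MWGN.H77.cls
theorem olr : OlrStmt := MWGN.H27.olr cls
theorem tlw : TlwStmt := MWGN.H74.tlw
theorem tlr : TlrStmt := MWGN.H23.tlr olr tlw ctt sim
theorem wcv : WcvStmt := MWGN.H6.wcv olr tlr
theorem kar : KarStmt := MWGN.H49.kar
theorem kpr : KprStmt := MWGN.H60.kpr
theorem srt : SrtStmt := MWGN.H4.srt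
theorem noa : NoaStmt := Pool.Agent.Helper34_MWGN.noa srt
theorem nob : NobStmt := MWGN.H76.nob pow
theorem ren : RenStmt := MWGN.H46.ren
theorem dst : DstStmt := MWGN.H15.dst
theorem spv : SpvStmt := MWGN.H16.spv noa nob ren dst wcv kar kpr
theorem vcl : VclStmt := MWGN.H43.vcl spv wcv kar kpr
theorem prf : PrfStmt := MWGN.H14.prf
theorem prb : PrbStmt := MWGN.H10.prb
theorem sa1 : Sa1Stmt := MWGN.H42.sa1 prf prb
theorem sa2 : Sa2Stmt := MWGN.H50.sa2 prf prb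
theorem cmw : CmwStmt := MWGN.H36.cmw
theorem glx : GlxStmt := MWGN.H54.glx
theorem gls : GlsStmt := MWGN.H7.gls
theorem wcx : WcxStmt := MWGN.H94.wcx glx gls
theorem spx : SpxStmt := MWGN.H59.spx
theorem mpo : MpoStmt := MWGN.H26.mpo
theorem mcv : McvStmt := MWGN.H19.mcv mpo
theorem hze : HzeStmt := MWGN.H81.hze mpo
theorem for_ : ForStmt := MWGN.H53.for_
theorem mc1 : Mc1Stmt := MWGN.H10.mc1 for_ mcv
theorem mc2 : Mc2Stmt := MWGN.H45.mc2 for_ mcv mpo hze
theorem mc3 : Mc3Stmt := MWGN.H81M.mc3 for_ mcv mpo hze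
theorem clo : CloStmt := MWGN.H88.clo for_ wcx spx mc1 mc2 mc3
theorem dpe : DpeStmt := MWGN.H7.dpe vcl sa1 sa2 clo
theorem g3f : G3fStmt := MWGN.H66.g3f dpe cmw

end Pool.Agent.MWGN.Comp
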