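import Pool.Agent.MWGN.StmtsC

/-!
# MWGN, row FSP: one filled gap fills all
-/

set_option autoImplicit false

namespace Pool.Agent.MWGN.H54F

open Pool.Agent.Helper14_MV Pool.Agent.Helper2_MV Pool.Agent.MWGN
open Pool.Agent.MWK (pre Gw)

theorem bs_succ (L C : ℕ → List ℕ) (X : List ℕ) (s : ℕ → Bool) (r : ℕ) :
    bs L C X s (r + 1) = bs L C X s r ++
      (L r ++ (C r ++ (C r ++ (if s r then X ++ X else [])))) := by
  simp [bs, List.range_succ]

theorem bs_congr {L C : ℕ → List ℕ} {X : List ℕ} {s s' : ℕ → Bool} {r : ℕ}
    (h : ∀ i < r, s i = s' i) : bs L C X s r = bs L C X s' r := by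
  induction r with
  | zero => rfl
  | succ r ih =>
    rw [bs_succ, bs_succ, ih (fun i hi => h i (by omega)), h r (by omega)]

theorem bs_split (L C : ℕ → List ℕ) (X : List ℕ) (s : ℕ → Bool) (i k : ℕ) :
    bs L C X s (i + 1 + k) = bs L C X s i ++
      ((L i ++ (C i ++ (C i ++ (if s i then X ++ X else [])))) ++
        bs (fun j => L (j + (i + 1))) (fun j => C (j + (i + 1))) X (fun j => s (j + (i + 1))) k) := by
  induction k with
  | zero => 
    rw [Nat.add_zero, bs_succ]
    simp [bs]
  | succ k ih =>
    rw [← Nat.add_assoc, bs_succ, ih, bs_succ]
    have e : i + 1 + k = k + (i + 1) := by omega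
    rw [e]
    simp only [List.append_assoc]

/-- the exchange of two squares -/
theorem sqc {β : FIC} (hG : Gz β) (X C : List ℕ) :
    RR β (C ++ (C ++ (X ++ X))) (X ++ (X ++ (C ++ C))) := by
  have h := hG.c.sub (fun i => if i = 0 then C else X)
  simpa using h

/-- congruence in a context -/
theorem cx {β : FIC} {u v : List ℕ} (h : RR β u v) (p q : List ℕ) :
    RR β (p ++ (u ++ q)) (p ++ (v ++ q)) :=
  (RR.refl p).append (h.append (RR.refl q))

theorem fsp (h1 : TlfStmt) : FspStmt := by
  intro β hG r hFB
  have key : ∀ n, n ≤ r → ∀ τ : List ℕ, Tau τ n → ∀ s : ℕ → Bool,
      (n < r ∨ ∃ i < n, s i = true) → ∀ (X B : List ℕ) (S L C : ℕ → List ℕ),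
        RR β (ws X B S L C s τ n) (ws X B S L C (fun _ => true) τ n) := by
    intro n
    induction n using Nat.strong_induction_on with
    | _ n ih =>
      intro hn τ hτ s hs X B S L C
      by_cases hall : ∀ i < n, s i = false
      · have hlt : n < r := by
          rcases hs with h | ⟨i, hi, hsi⟩
          · exact h
          · rw [hall i hi] at hsi
            exact absurd hsi (by simp)
        have e : ws X B S L C s τ n = ws X B S L C (fun _ => false) τ n := by
          unfold ws
          rw [bs_congr (s := s) (s' := fun _ => false) hall]
        rw [e]
        exact hFB n hlt τ hτ X B S L C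
      · have hex : ∃ i < n, s i = true := by
          by_contra hc
          apply hall
          intro i hi
          by_contra hne
          exact hc ⟨i, hi, by simpa using hne⟩
        obtain ⟨i, hi, hsi⟩ := hex
        obtain ⟨k, rfl⟩ : ∃ k, n = i + 1 + k := ⟨n - (i + 1), by omega⟩
        -- the left part
        let s' : ℕ → Bool := fun j => if j < i then true else s j
        have hs'i : s' i = true := by
          show (if i < i then true else s i) = true
          rw [if_neg (lt_irrefl i)]
          exact hsi
        obtain ⟨S1, R1, hS1⟩ := h1 τ S L (fun j => decide (j ≤ i)) hτ.1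
        have hτ1 : Tau (τ.filter (fun j => decide (j ≤ i))) i := by
          refine ⟨hτ.1.filter _, fun j => ?_⟩
          rw [List.mem_filter, hτ.2]
          simp only [decide_eq_true_eq]
          omega
        have step1 : RR β (ws X B S L C s τ (i + 1 + k)) (ws X B S L C s' τ (i + 1 + k)) := by
          let T := bs (fun j => L (j + (i + 1))) (fun j => C (j + (i + 1))) X
              (fun j => s (j + (i + 1))) k ++ (L (i + 1 + k) ++ (X ++ B))
          have hT' : bs (fun j => L (j + (i + 1))) (fun j => C (j + (i + 1))) X
              (fun j => s' (j + (i + 1))) k = bs (fun j => L (j + (i + 1)))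
                (fun j => C (j + (i + 1))) X (fun j => s (j + (i + 1))) k := by
            apply bs_congr
            intro j hj
            show (if j + (i + 1) < i then true else s (j + (i + 1))) = s (j + (i + 1))
            rw [if_neg (by omega)]
          have form : ∀ σ : ℕ → Bool, σ i = true → bs (fun j => L (j + (i + 1)))
              (fun j => C (j + (i + 1))) X (fun j => σ (j + (i + 1))) k =
                bs (fun j => L (j + (i + 1))) (fun j => C (j + (i + 1))) X
                  (fun j => s (j + (i + 1))) k →
              RR β (ws X B S L C σ τ (i + 1 + k))
                (ws X (X ++ (C i ++ (C i ++ T))) S1 L C σ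
                  (τ.filter (fun j => decide (j ≤ i))) i ++ R1) := by
            intro σ hσ he
            have e1 : ws X B S L C σ τ (i + 1 + k) =
                (X ++ (X ++ (bs L C X σ i ++ L i))) ++ ((C i ++ (C i ++ (X ++ X))) ++
                  (T ++ τ.flatMap (fun i => S i ++ L i))) := by
              unfold ws
              rw [bs_split, he, hσ]
              simp only [T, if_true, List.append_assoc]
            have e2 : ws X (X ++ (C i ++ (C i ++ T))) S1 L C σ
                (τ.filter (fun j => decide (j ≤ i))) i ++ R1 =
                (X ++ (X ++ (bs L C X σ i ++ L i))) ++ ((X ++ (X ++ (C i ++ C i))) ++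
                  (T ++ τ.flatMap (fun i => S i ++ L i))) := by
              rw [hS1]
              unfold ws
              simp only [List.append_assoc]
            rw [e1, e2]
            exact cx (sqc hG X (C i)) _ _
          have f1 := form s hsi rfl
          have f2 := form s' hs'i hT'
          have hP := ih i (by omega) (by omega) _ hτ1 s (Or.inl (by omega)) X
            (X ++ (C i ++ (C i ++ T))) S1 L C
          have e3 : ws X (X ++ (C i ++ (C i ++ T))) S1 L C (fun _ => true)
              (τ.filter (fun j => decide (j ≤ i))) i = ws X (X ++ (C i ++ (C i ++ T))) S1 L C s'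
              (τ.filter (fun j => decide (j ≤ i))) i := by
            unfold ws
            rw [bs_congr (s := fun _ => true) (s' := s')]
            intro j hj
            show true = (if j < i then true else s j)
            rw [if_pos hj]
          rw [e3] at hP
          exact β.trans f1 (β.trans (hP.append (RR.refl R1)) f2.symm)
        -- the right part
        obtain ⟨S2, R2, hS2⟩ := h1 τ S L (fun j => decide (i < j)) hτ.1
        let τ2 := (τ.filter (fun j => decide (i < j))).map (fun j => j - (i + 1))
        have hτ2 : Tau τ2 k := by
          refine ⟨?_, fun j => ?_⟩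
          · refine (List.nodup_map_iff_inj_on (hτ.1.filter _)).2 ?_
            intro a ha b hb hab
            rw [List.mem_filter] at ha hb
            simp only [decide_eq_true_eq] at ha hb
            omega
          · show j ∈ (τ.filter (fun j => decide (i < j))).map (fun j => j - (i + 1)) ↔ j ≤ k
            rw [List.mem_map]
            constructor
            · rintro ⟨a, ha, rfl⟩
              rw [List.mem_filter, hτ.2] at ha
              simp only [decide_eq_true_eq] at ha
              omega
            · intro hj
              refine ⟨j + (i + 1), ?_, by omega⟩
              rw [List.mem_filter, hτ.2]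
              simp only [decide_eq_true_eq]
              omega
        have htail : (τ.filter (fun j => decide (i < j))).flatMap (fun j => S2 j ++ L j) =
            τ2.flatMap (fun j => S2 (j + (i + 1)) ++ L (j + (i + 1))) := by
          show _ = ((τ.filter (fun j => decide (i < j))).map (fun j => j - (i + 1))).flatMap _
          rw [List.flatMap_map]
          apply List.flatMap_congr
          intro j hj
          rw [List.mem_filter] at hj
          simp only [decide_eq_true_eq] at hj
          have e : j - (i + 1) + (i + 1) = j := by omega
          rw [e]
        have form2 : ∀ σ : ℕ → Bool, σ i = true →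
            ws X B S L C σ τ (i + 1 + k) = (X ++ (X ++ (bs L C X σ i ++ (L i ++ (C i ++ C i))))) ++
              (ws X B (fun j => S2 (j + (i + 1))) (fun j => L (j + (i + 1)))
                (fun j => C (j + (i + 1))) (fun j => σ (j + (i + 1))) τ2 k ++ R2) := by
          intro σ hσ
          have e : i + 1 + k = k + (i + 1) := by omega
          have eL : L (i + 1 + k) = L (k + (i + 1)) := by rw [e]
          unfold ws
          rw [bs_split, hσ, hS2, htail, eL]
          simp only [if_true, List.append_assoc]
        have step2 : RR β (ws X B S L C s' τ (i + 1 + k))
            (ws X B S L C (fun _ => true) τ (i + 1 + k)) := by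
          rw [form2 s' hs'i, form2 (fun _ => true) rfl]
          have e4 : bs L C X s' i = bs L C X (fun _ => true) i := by
            apply bs_congr
            intro j hj
            show (if j < i then true else s j) = true
            rw [if_pos hj]
          rw [e4]
          exact cx (ih k (by omega) (by omega) τ2 hτ2 _ (Or.inl (by omega)) X B _ _ _) _ _
        exact β.trans step1 step2
  intro τ hτ s hs X B S L C
  exact key r le_rfl τ hτ s (Or.inr hs) X B S L C

end Pool.Agent.MWGN.H54F
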