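import Pool.Agent.Helper54_MWGN.Comp
import Pool.Agent.Helper54_MWGN.FSP
import Pool.Agent.Helper51_MWGN.INP
import Pool.Agent.Helper27_MWGN.INC
import Pool.Agent.Helper3_MWGN.KFI
import Pool.Agent.Helper67_MWGN.MPF
import Pool.Agent.Helper46_MWGN.MCF
import Pool.Agent.Helper4_MWGN.ORD
import Pool.Agent.Helper77_MWGN.STY
import Pool.Agent.Helper16_MWGN.STX
import Pool.Agent.Helper2_MWGN.STR
import Pool.Agent.Helper43_MWGN.FOF
import Pool.Agent.Helper19_MWGN.CLF
import Pool.Agent.Helper88_MWGN.FAA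
import Pool.Agent.Helper64_MWGN.FAP
import Pool.Agent.Helper45_MWGN.NOF
import Pool.Agent.Helper36_MWGN.NOG
import Pool.Agent.Helper60_MWGN.DSR
import Pool.Agent.Helper10_MWGN.RNF
import Pool.Agent.Helper39_MWGN.TLF
import Pool.Agent.Helper35_MWGN.VEQ
import Pool.Agent.Helper66_MWGN.TWT
import Pool.Agent.Helper26_MWGN.RUN
import Pool.Agent.Helper49_MWGN.VCF
import Pool.Agent.Helper59_MWGN.SAF
import Pool.Agent.Helper15_MWGN.PEF
import Pool.Agent.Helper36_MWGN.FFR

/-!
# MWGN: composition of parts C and D (the crossing hull pentagon)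
-/

namespace Pool.Agent.MWGN.Comp

open Pool.Agent.Helper14_MV Pool.Agent.Helper2_MV Pool.Agent.MWGN

theorem inp : InpStmt := MWGN.H51.inp
theorem inc : IncStmt := MWGN.H27I.inc inp
theorem kfi : KfiStmt := MWGN.H3.kfi inc
theorem mpf : MpfStmt := MWGN.H67.mpf inp
theorem mcf : McfStmt := MWGN.H46.mcf
theorem ord : OrdStmt := MWGN.H4.ord
theorem sty : StyStmt := MWGN.H77.sty kfi mpf mcf ord
theorem stx : StxStmt := MWGN.H16.stx kfi mpf mcf ord
theorem str : StrStmt := MWGN.H2.str kfi mpf mcf ord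
theorem fof : FofStmt := MWGN.H43.fof
theorem clf : ClfStmt := MWGN.H19.clf fof kfi sty stx str
theorem faa : FaaStmt := MWGN.H88.faa
theorem fap : FapStmt := MWGN.H64.fap
theorem nof : NofStmt := MWGN.H45.nof srt
theorem nog : NogStmt := MWGN.H36.nog
theorem dsr : DsrStmt := MWGN.H60.dsr
theorem rnf : RnfStmt := MWGN.H10.rnf
theorem tlf : TlfStmt := MWGN.H39.tlf
theorem fsp : FspStmt := MWGN.H54F.fsp tlf
theorem veq : VeqStmt := MWGN.H35.veq nof nog dsr rnf fsp
theorem twt : TwtStmt := MWGN.H66.twt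
theorem run : RunStmt := MWGN.H26.run twt
theorem vcf : VcfStmt := MWGN.H49C.vcf olr tlr veq run faa fap
theorem saf : SafStmt := MWGN.H59.saf prf twt
theorem pef : PefStmt := MWGN.H15.pef vcf clf saf
theorem ffr : FfrStmt := MWGN.H36.ffr fsp

/-- modularity and `I1` imply the fill identity for all words -/
theorem ffw (β : FIC) (hm : ModF β) (hG : Gz β) (hI : MWZ.I1 1 (RR β)) : FFW β :=
  ffr β hG hI (fun r τ h => pef β hm hG r τ h)

end Pool.Agent.MWGN.Comp
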